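import Pool.Agent.Y745.SW.DefsA
import Pool.Agent.Helper256.KM.Mertens

/-!
# Project SW (helper745): mean values of products of powers of the sum over the small primes
-/

set_option autoImplicit false

namespace Pool.Agent.Y655.SW

open Filter Topology Finset Pool.Agent.Y745.SW

/-! ### derivations from additive functions -/

/-- the product of an arithmetic function with a function vanishing nowhere in particular -/
noncomputable def Dw (w : ℕ → ℝ) (f : ArithmeticFunction ℝ) : ArithmeticFunction ℝ :=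
  ⟨fun n => w n * f n, by simp⟩

lemma Dw_apply (w : ℕ → ℝ) (f : ArithmeticFunction ℝ) (n : ℕ) : Dw w f n = w n * f n := rfl

lemma nsmul_app (c : ℕ) (f : ArithmeticFunction ℝ) (n : ℕ) : (c • f) n = (c : ℝ) * f n := by
  induction c with
  | zero => simp
  | succ c ih =>
    rw [succ_nsmul, ArithmeticFunction.add_apply, ih]
    push_cast
    ring

lemma Dw_mul {w : ℕ → ℝ} (hw : ∀ a b : ℕ, a ≠ 0 → b ≠ 0 → w (a * b) = w a + w b)
    (f g : ArithmeticFunction ℝ) : Dw w (f * g) = Dw w f * g + f * Dw w g := by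
  ext n
  rw [ArithmeticFunction.add_apply, Dw_apply, ArithmeticFunction.mul_apply,
    ArithmeticFunction.mul_apply, ArithmeticFunction.mul_apply, Finset.mul_sum,
    ← Finset.sum_add_distrib]
  refine Finset.sum_congr rfl fun x hx => ?_
  rw [Nat.mem_divisorsAntidiagonal] at hx
  have h1 : x.1 ≠ 0 := by
    rintro h; apply hx.2; rw [← hx.1, h, zero_mul]
  have h2 : x.2 ≠ 0 := by
    rintro h; apply hx.2; rw [← hx.1, h, mul_zero]
  rw [← hx.1, hw _ _ h1 h2, Dw_apply, Dw_apply]
  ring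

lemma Dw_pow {w : ℕ → ℝ} (hw : ∀ a b : ℕ, a ≠ 0 → b ≠ 0 → w (a * b) = w a + w b)
    (f : ArithmeticFunction ℝ) (k : ℕ) : Dw w (f ^ (k + 1)) = (k + 1) • (f ^ k * Dw w f) := by
  induction k with
  | zero => simp
  | succ k ih =>
    rw [pow_succ, Dw_mul hw, ih]
    have e1 : ((k + 1) • (f ^ k * Dw w f)) * f = (k + 1) • (f ^ (k + 1) * Dw w f) := by
      rw [smul_mul_assoc, pow_succ]
      congr 1
      ring
    rw [e1, add_smul (k + 1) 1, one_smul]

/-! ### the support of the powers -/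

/-- the primes up to `y` -/
noncomputable abbrev Pr (y : ℝ) : Finset ℕ := (Finset.Icc 1 ⌊y⌋₊).filter Nat.Prime

lemma mem_Pr {y : ℝ} (hy : 0 ≤ y) {p : ℕ} : p ∈ Pr y ↔ p.Prime ∧ (p : ℝ) ≤ y := by
  rw [Finset.mem_filter, Finset.mem_Icc, Nat.le_floor_iff hy]
  constructor
  · rintro ⟨⟨_, h2⟩, h3⟩; exact ⟨h3, h2⟩
  · rintro ⟨h1, h2⟩; exact ⟨⟨h1.one_le, h2⟩, h1⟩

lemma pA_apply (y : ℝ) (n : ℕ) :
    pA y n = if n.Prime ∧ (n : ℝ) ≤ y then (Real.sqrt n)⁻¹ else 0 := rfl

lemma pA_pow_le {y : ℝ} (_hy : 0 ≤ y) (k : ℕ) : ∀ n : ℕ, (pA y ^ k) n ≠ 0 → n ≤ ⌊y⌋₊ ^ k := by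
  induction k with
  | zero =>
    intro n hn
    rw [pow_zero, ArithmeticFunction.one_apply] at hn
    rw [pow_zero]
    by_contra h
    rw [if_neg (by omega)] at hn
    exact hn rfl
  | succ k ih =>
    intro n hn
    rw [pow_succ, ArithmeticFunction.mul_apply] at hn
    obtain ⟨x, hx, hx2⟩ := Finset.exists_ne_zero_of_sum_ne_zero hn
    rw [Nat.mem_divisorsAntidiagonal] at hx
    have h1 := ih x.1 (left_ne_zero_of_mul hx2)
    have h2 := right_ne_zero_of_mul hx2
    rw [pA_apply] at h2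
    have h3 : x.2.Prime ∧ (x.2 : ℝ) ≤ y := by
      by_contra h; rw [if_neg h] at h2; exact h2 rfl
    have h4 : x.2 ≤ ⌊y⌋₊ := Nat.le_floor h3.2
    rw [← hx.1, pow_succ]
    exact Nat.mul_le_mul h1 h4

/-- the number of prime factors up to `y` -/
noncomputable def wy (y : ℝ) (n : ℕ) : ℝ := ∑ p ∈ Pr y, (n.factorization p : ℝ)

lemma wy_mul (y : ℝ) (a b : ℕ) (ha : a ≠ 0) (hb : b ≠ 0) : wy y (a * b) = wy y a + wy y b := by
  unfold wy
  rw [← Finset.sum_add_distrib]
  refine Finset.sum_congr rfl fun p _ => ?_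
  rw [Nat.factorization_mul ha hb, Finsupp.add_apply, Nat.cast_add]

lemma Dw_pA {y : ℝ} (hy : 0 ≤ y) : Dw (wy y) (pA y) = pA y := by
  ext n
  rw [Dw_apply, pA_apply]
  split_ifs with h
  · have : wy y n = 1 := by
      unfold wy
      rw [Finset.sum_eq_single n]
      · rw [h.1.factorization_self]; norm_num
      · intro p _ hp
        rw [h.1.factorization, Finsupp.single_apply, if_neg (fun e => hp e.symm)]
        norm_num
      · intro hn
        exact absurd ((mem_Pr hy).2 h) hn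
    rw [this, one_mul]
  · rw [mul_zero]

lemma wy_pow {y : ℝ} (hy : 0 ≤ y) (k n : ℕ) : wy y n * (pA y ^ k) n = k * (pA y ^ k) n := by
  cases k with
  | zero =>
    rw [pow_zero, ArithmeticFunction.one_apply]
    split_ifs with h
    · subst h
      simp [wy]
    · simp
  | succ k =>
    have h1 := Dw_pow (wy_mul y) (pA y) k
    rw [Dw_pA hy, ← pow_succ] at h1
    have h2 := congrArg (fun f : ArithmeticFunction ℝ => f n) h1
    simp only [Dw_apply] at h2
    rw [h2, nsmul_app]

lemma pA_orth {y : ℝ} (hy : 0 ≤ y) {k l : ℕ} (hkl : k ≠ l) (n : ℕ) :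
    (pA y ^ k) n * (pA y ^ l) n = 0 := by
  have h1 := wy_pow hy k n
  have h2 := wy_pow hy l n
  have h3 : ((k : ℝ) - l) * ((pA y ^ k) n * (pA y ^ l) n) = 0 := by
    linear_combination (-(pA y ^ l) n) * h1 + ((pA y ^ k) n) * h2
  rcases mul_eq_zero.1 h3 with h | h
  · exfalso
    apply hkl
    have : (k : ℝ) = l := by linarith
    exact_mod_cast this
  · exact h

/-! ### the recursion -/

lemma fac_mul (p : ℕ) (a b : ℕ) (ha : a ≠ 0) (hb : b ≠ 0) :
    ((a * b).factorization p : ℝ) = a.factorization p + b.factorization p := by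
  rw [Nat.factorization_mul ha hb, Finsupp.add_apply, Nat.cast_add]

lemma pA_rec {y : ℝ} (hy : 0 ≤ y) {p : ℕ} (hp : p ∈ Pr y) (k m : ℕ) (hm : m ≠ 0) :
    ((m.factorization p : ℝ) + 1) * (pA y ^ (k + 1)) (p * m) =
      (k + 1) * ((Real.sqrt p)⁻¹ * (pA y ^ k) m) := by
  have hp' := (mem_Pr hy).1 hp
  have h1 := Dw_pow (w := fun n => (n.factorization p : ℝ)) (fun a b => fac_mul p a b) (pA y) k
  have h2 := congrArg (fun f : ArithmeticFunction ℝ => f (p * m)) h1
  simp only [Dw_apply] at h2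
  rw [fac_mul p p m hp'.1.ne_zero hm, hp'.1.factorization_self] at h2
  have h3 : ((k + 1) • (pA y ^ k * Dw (fun n => (n.factorization p : ℝ)) (pA y))) (p * m) =
      (k + 1) * ((pA y ^ k * Dw (fun n => (n.factorization p : ℝ)) (pA y)) (p * m)) := by
    rw [nsmul_app]
    push_cast
    rfl
  rw [h3] at h2
  have h4 : (pA y ^ k * Dw (fun n => (n.factorization p : ℝ)) (pA y)) (p * m) =
      (Real.sqrt p)⁻¹ * (pA y ^ k) m := by
    rw [ArithmeticFunction.mul_apply, Finset.sum_eq_single (m, p)]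
    · rw [Dw_apply, pA_apply, if_pos hp', hp'.1.factorization_self]
      push_cast
      ring
    · intro x hx hne
      rw [Nat.mem_divisorsAntidiagonal] at hx
      rw [Dw_apply, pA_apply]
      split_ifs with h
      · by_cases e : x.2 = p
        · exfalso
          apply hne
          have : x.1 = m := by
            have h5 := hx.1
            rw [e, mul_comm] at h5
            exact Nat.eq_of_mul_eq_mul_left hp'.1.pos h5
          exact Prod.ext this e
        · rw [h.1.factorization, Finsupp.single_apply, if_neg e]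
          simp
      · simp
    · intro h
      exfalso
      apply h
      rw [Nat.mem_divisorsAntidiagonal]
      exact ⟨mul_comm _ _, mul_ne_zero hp'.1.ne_zero hm⟩
  rw [h4] at h2
  rw [← h2]
  push_cast
  ring

/-- the sum of the squares -/
noncomputable def SS (y : ℝ) (k : ℕ) : ℝ := ∑ n ∈ Finset.Icc 1 (⌊y⌋₊ ^ k), (pA y ^ k) n ^ 2

lemma SS_eq {y : ℝ} (hy : 0 ≤ y) (k N : ℕ) (hN : ⌊y⌋₊ ^ k ≤ N) :
    ∑ n ∈ Finset.Icc 1 N, (pA y ^ k) n ^ 2 = SS y k := by
  unfold SS
  symm
  refine Finset.sum_subset (Finset.Icc_subset_Icc_right hN) fun n _ h2 => ?_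
  by_contra h
  have h3 : (pA y ^ k) n ≠ 0 := fun e => h (by rw [e]; norm_num)
  have h4 := pA_pow_le hy k n h3
  rw [Finset.mem_Icc] at h2
  have h5 : n ≠ 0 := by rintro rfl; simp at h3
  exact h2 ⟨by omega, h4⟩

lemma SS_step_p {y : ℝ} (hy : 0 ≤ y) {p : ℕ} (hp : p ∈ Pr y) (k : ℕ) :
    ∑ n ∈ Finset.Icc 1 (⌊y⌋₊ ^ (k + 1)), (n.factorization p : ℝ) * (pA y ^ (k + 1)) n ^ 2 =
      (k + 1) ^ 2 * ∑ m ∈ Finset.Icc 1 (⌊y⌋₊ ^ k),
        (pA y ^ k) m ^ 2 * ((1 / (p : ℝ)) / ((m.factorization p : ℝ) + 1)) := by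
  have hp' := (mem_Pr hy).1 hp
  have hp0 : (0 : ℝ) < p := by exact_mod_cast hp'.1.pos
  have hpy : p ≤ ⌊y⌋₊ := Nat.le_floor hp'.2
  have h1 : ∑ n ∈ Finset.Icc 1 (⌊y⌋₊ ^ (k + 1)), (n.factorization p : ℝ) * (pA y ^ (k + 1)) n ^ 2 =
      ∑ n ∈ (Finset.Icc 1 (⌊y⌋₊ ^ k)).image (fun m => p * m),
        (n.factorization p : ℝ) * (pA y ^ (k + 1)) n ^ 2 := by
    symm
    refine Finset.sum_subset ?_ ?_
    · intro n hn
      rw [Finset.mem_image] at hn
      obtain ⟨m, hm, rfl⟩ := hn
      rw [Finset.mem_Icc] at hm ⊢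
      refine ⟨Nat.mul_pos hp'.1.pos hm.1, ?_⟩
      rw [pow_succ, mul_comm]
      exact Nat.mul_le_mul hm.2 hpy
    · intro n hn hn2
      rw [Finset.mem_Icc] at hn
      by_cases hd : p ∣ n
      · obtain ⟨m, rfl⟩ := hd
        have hm0 : m ≠ 0 := by rintro rfl; simp at hn
        have hm1 : ¬ m ≤ ⌊y⌋₊ ^ k := by
          intro h
          apply hn2
          rw [Finset.mem_image]
          exact ⟨m, Finset.mem_Icc.2 ⟨Nat.one_le_iff_ne_zero.2 hm0, h⟩, rfl⟩
        have h2 : (pA y ^ k) m = 0 := by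
          by_contra h
          exact hm1 (pA_pow_le hy k m h)
        have h3 := pA_rec hy hp k m hm0
        rw [h2, mul_zero, mul_zero] at h3
        have h4 : (pA y ^ (k + 1)) (p * m) = 0 := by
          rcases mul_eq_zero.1 h3 with h | h
          · exfalso
            have : (0 : ℝ) ≤ (m.factorization p : ℝ) := by positivity
            linarith
          · exact h
        rw [h4]
        norm_num
      · rw [Nat.factorization_eq_zero_of_not_dvd hd]
        norm_num
  rw [h1, Finset.sum_image (fun a _ b _ h => Nat.eq_of_mul_eq_mul_left hp'.1.pos h), Finset.mul_sum]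
  refine Finset.sum_congr rfl fun m hm => ?_
  rw [Finset.mem_Icc] at hm
  have hm0 : m ≠ 0 := by omega
  have h3 := pA_rec hy hp k m hm0
  have hv : (0 : ℝ) < (m.factorization p : ℝ) + 1 := by positivity
  have h4 : (pA y ^ (k + 1)) (p * m) =
      (k + 1) * ((Real.sqrt p)⁻¹ * (pA y ^ k) m) / ((m.factorization p : ℝ) + 1) := by
    rw [← h3]
    field_simp
  rw [h4, fac_mul p p m hp'.1.ne_zero hm0, hp'.1.factorization_self]
  have h5 : (Real.sqrt p)⁻¹ ^ 2 = 1 / (p : ℝ) := by
    rw [inv_pow, Real.sq_sqrt hp0.le, one_div]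
  push_cast
  rw [← h5]
  field_simp
  ring

lemma SS_succ {y : ℝ} (hy : 0 ≤ y) (k : ℕ) : SS y (k + 1) =
    (k + 1) * ∑ m ∈ Finset.Icc 1 (⌊y⌋₊ ^ k),
        (pA y ^ k) m ^ 2 * ∑ p ∈ Pr y, ((1 / (p : ℝ)) / ((m.factorization p : ℝ) + 1)) := by
  have h1 : ((k : ℝ) + 1) * SS y (k + 1) = ∑ n ∈ Finset.Icc 1 (⌊y⌋₊ ^ (k + 1)),
      ∑ p ∈ Pr y, (n.factorization p : ℝ) * (pA y ^ (k + 1)) n ^ 2 := by
    unfold SS
    rw [Finset.mul_sum]
    refine Finset.sum_congr rfl fun n _ => ?_
    rw [← Finset.sum_mul]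
    have h2 := wy_pow hy (k + 1) n
    unfold wy at h2
    push_cast at h2
    rw [sq, ← mul_assoc, ← mul_assoc, h2]
  rw [Finset.sum_comm, Finset.sum_congr rfl (fun p hp => SS_step_p hy hp k), ← Finset.mul_sum,
    Finset.sum_comm] at h1
  have h3 : (0 : ℝ) < (k : ℝ) + 1 := by positivity
  have h4 : SS y (k + 1) = (k + 1) * ∑ m ∈ Finset.Icc 1 (⌊y⌋₊ ^ k), ∑ p ∈ Pr y,
        (pA y ^ k) m ^ 2 * ((1 / (p : ℝ)) / ((m.factorization p : ℝ) + 1)) := by
    have h5 := mul_left_cancel₀ h3.ne' (h1.trans (by rw [sq, mul_assoc]))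
    exact h5
  rw [h4]
  congr 1
  refine Finset.sum_congr rfl fun m _ => ?_
  rw [Finset.mul_sum]

/-- the sum of the reciprocals of the primes -/
noncomputable def VV (y : ℝ) : ℝ := ∑ p ∈ Pr y, (1 : ℝ) / p

lemma SS_nonneg (y : ℝ) (k : ℕ) : 0 ≤ SS y k := Finset.sum_nonneg fun _ _ => sq_nonneg _

lemma SS_upper {y : ℝ} (hy : 0 ≤ y) (k : ℕ) : SS y (k + 1) ≤ (k + 1) * (VV y * SS y k) := by
  rw [SS_succ hy]
  refine mul_le_mul_of_nonneg_left ?_ (by positivity)
  unfold SS VV
  rw [Finset.mul_sum]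
  refine Finset.sum_le_sum fun m _ => ?_
  rw [mul_comm]
  refine mul_le_mul_of_nonneg_right ?_ (sq_nonneg _)
  refine Finset.sum_le_sum fun p _ => ?_
  refine div_le_self (by positivity) ?_
  have : (0 : ℝ) ≤ (m.factorization p : ℝ) := by positivity
  linarith

lemma SS_lower {y : ℝ} (hy : 0 ≤ y) (k : ℕ) : (k + 1) * ((VV y - k) * SS y k) ≤ SS y (k + 1) := by
  rw [SS_succ hy]
  refine mul_le_mul_of_nonneg_left ?_ (by positivity)
  unfold SS
  rw [Finset.mul_sum]
  refine Finset.sum_le_sum fun m _ => ?_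
  by_cases h0 : (pA y ^ k) m = 0
  · rw [h0]; simp
  have h1 := wy_pow hy k m
  have h2 : wy y m = k := mul_right_cancel₀ h0 h1
  rw [mul_comm]
  refine mul_le_mul_of_nonneg_left ?_ (sq_nonneg _)
  rw [← h2]
  unfold VV wy
  rw [← Finset.sum_sub_distrib]
  refine Finset.sum_le_sum fun p hp => ?_
  have hp' := (mem_Pr hy).1 hp
  have hp1 : (1 : ℝ) ≤ p := by exact_mod_cast hp'.1.one_le
  have hv : (0 : ℝ) ≤ (m.factorization p : ℝ) := by positivity
  rw [le_div_iff₀ (by linarith)]
  have h5 : 1 / (p : ℝ) ≤ 1 := by rw [div_le_one (by linarith)]; exact hp1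
  have h6 : 0 ≤ 1 / (p : ℝ) := by positivity
  nlinarith [mul_nonneg h6 hv]

/-! ### the asymptotics -/

lemma VV_lim : Tendsto (fun T : ℝ => VV (xT T) / Real.log (Real.log T)) atTop (𝓝 1) := by
  obtain ⟨C, hC⟩ := Pool.Agent.Helper256.KM.mertens_inv
  have hL : Tendsto (fun T : ℝ => Real.log (Real.log T)) atTop atTop :=
    Real.tendsto_log_atTop.comp Real.tendsto_log_atTop
  have hLLL : Tendsto (fun T : ℝ => Real.log (Real.log (Real.log T)) / Real.log (Real.log T))
      atTop (𝓝 0) := by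
    have h1 : Tendsto (fun x : ℝ => Real.log x / x) atTop (𝓝 0) := by
      have := Real.isLittleO_log_id_atTop.tendsto_div_nhds_zero
      simpa using this
    exact h1.comp hL
  -- the bound
  have hb : ∀ᶠ T : ℝ in atTop, |VV (xT T) / Real.log (Real.log T) - 1| ≤
      (C + 1) / Real.log (Real.log T) + |Real.log (Real.log (Real.log T)) / Real.log (Real.log T)| := by
    have hq : Tendsto (fun T : ℝ => Real.log T / Real.log (Real.log T)) atTop atTop := by
      have h1 : Tendsto (fun x : ℝ => x / Real.log x) atTop atTop := by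
        have h2 := Real.isLittleO_log_id_atTop.tendsto_div_nhds_zero
        have h3 : Tendsto (fun x : ℝ => Real.log x / x) atTop (𝓝[>] 0) := by
          rw [tendsto_nhdsWithin_iff]
          refine ⟨by simpa using h2, ?_⟩
          filter_upwards [eventually_gt_atTop 1] with x hx
          exact div_pos (Real.log_pos hx) (by linarith)
        have h4 := h3.inv_tendsto_nhdsGT_zero
        refine h4.congr fun x => ?_
        simp
      exact h1.comp Real.tendsto_log_atTop
    filter_upwards [hL.eventually_ge_atTop 1, hq.eventually_ge_atTop 3,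
      Real.tendsto_log_atTop.eventually_ge_atTop 1] with T h1 h2 h3
    have hL0 : 0 < Real.log (Real.log T) := by linarith
    -- the floor
    obtain ⟨x, hx⟩ : ∃ x : ℝ, x = xT T := ⟨_, rfl⟩
    have hxl : Real.log x = Real.log T / Real.log (Real.log T) := by
      rw [hx, xT, Real.log_exp]
    have hx3 : (4 : ℝ) ≤ x := by
      rw [hx, xT]
      have := Real.add_one_le_exp (Real.log T / Real.log (Real.log T))
      linarith
    have hfl : 3 ≤ ⌊x⌋₊ := by
      have : 4 ≤ ⌊x⌋₊ := Nat.le_floor (by exact_mod_cast hx3)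
      omega
    have hM := hC ⌊x⌋₊ hfl
    have hVV : VV x = ∑ p ∈ (Finset.Icc 1 ⌊x⌋₊).filter Nat.Prime, (1 : ℝ) / p := rfl
    rw [← hVV] at hM
    -- loglog of the floor against loglog x
    have hf1 : (⌊x⌋₊ : ℝ) ≤ x := Nat.floor_le (by linarith)
    have hf2 : x / 2 ≤ (⌊x⌋₊ : ℝ) := by
      have := Nat.lt_floor_add_one x
      linarith
    have hf3 : (3 : ℝ) ≤ (⌊x⌋₊ : ℝ) := by exact_mod_cast hfl
    have hlx : 3 ≤ Real.log x := by rw [hxl]; exact h2
    have hl1 : Real.log x - 1 ≤ Real.log (⌊x⌋₊ : ℝ) := by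
      have h5 : Real.log (x / 2) ≤ Real.log (⌊x⌋₊ : ℝ) := Real.log_le_log (by linarith) hf2
      rw [Real.log_div (by linarith) (by norm_num)] at h5
      have := Real.log_two_lt_d9
      linarith
    have hl2 : Real.log (⌊x⌋₊ : ℝ) ≤ Real.log x := Real.log_le_log (by linarith) hf1
    have hl3 : Real.log (Real.log (⌊x⌋₊ : ℝ)) ≤ Real.log (Real.log x) :=
      Real.log_le_log (by linarith) hl2
    have hl4 : Real.log (Real.log x) - 1 ≤ Real.log (Real.log (⌊x⌋₊ : ℝ)) := by
      have h5 : Real.log (Real.log x / 2) ≤ Real.log (Real.log (⌊x⌋₊ : ℝ)) :=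
        Real.log_le_log (by linarith) (by linarith)
      rw [Real.log_div (by linarith) (by norm_num)] at h5
      have := Real.log_two_lt_d9
      linarith
    have hl5 : Real.log (Real.log x) = Real.log (Real.log T) - Real.log (Real.log (Real.log T)) := by
      rw [hxl, Real.log_div (by linarith) hL0.ne']
    have h7 : |VV x - Real.log (Real.log T)| ≤ (C + 1) + |Real.log (Real.log (Real.log T))| := by
      have h8 := abs_le.1 hM
      have h9 := le_abs_self (Real.log (Real.log (Real.log T)))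
      have h10 := neg_abs_le (Real.log (Real.log (Real.log T)))
      rw [abs_le]
      constructor <;> linarith [h8.1, h8.2]
    rw [← hx]
    have h8 : VV x / Real.log (Real.log T) - 1 = (VV x - Real.log (Real.log T)) / Real.log (Real.log T) := by
      field_simp
    rw [h8, abs_div, abs_div, abs_of_pos hL0, ← add_div]
    exact div_le_div_of_nonneg_right h7 hL0.le
  have hz : Tendsto (fun T : ℝ => (C + 1) / Real.log (Real.log T) +
      |Real.log (Real.log (Real.log T)) / Real.log (Real.log T)|) atTop (𝓝 0) := by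
    have h1 : Tendsto (fun T : ℝ => (C + 1) / Real.log (Real.log T)) atTop (𝓝 0) :=
      tendsto_const_nhds.div_atTop hL
    have h2 := hLLL.abs
    rw [abs_zero] at h2
    simpa using h1.add h2
  rw [tendsto_iff_norm_sub_tendsto_zero]
  exact squeeze_zero' (Eventually.of_forall fun _ => norm_nonneg _)
    (hb.mono fun T hT => by rw [Real.norm_eq_abs]; exact hT) hz

lemma SS_lim (k : ℕ) : Tendsto (fun T : ℝ => SS (xT T) k / Real.log (Real.log T) ^ k) atTop
    (𝓝 (k.factorial : ℝ)) := by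
  have hL : Tendsto (fun T : ℝ => Real.log (Real.log T)) atTop atTop :=
    Real.tendsto_log_atTop.comp Real.tendsto_log_atTop
  induction k with
  | zero =>
    refine Tendsto.congr (f₁ := fun _ => (1 : ℝ)) (fun T => ?_) (by simp)
    rw [SS]
    simp
  | succ k ih =>
    have h1 : Tendsto (fun T : ℝ => ((k : ℝ) + 1) * ((VV (xT T) / Real.log (Real.log T)) *
        (SS (xT T) k / Real.log (Real.log T) ^ k))) atTop (𝓝 (((k + 1).factorial : ℕ) : ℝ)) := by
      have h2 := (VV_lim.mul ih).const_mul ((k : ℝ) + 1)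
      rw [one_mul] at h2
      rw [Nat.factorial_succ]
      push_cast
      exact h2
    have h3 : Tendsto (fun T : ℝ => ((k : ℝ) + 1) * ((VV (xT T) / Real.log (Real.log T) -
        k / Real.log (Real.log T)) *
        (SS (xT T) k / Real.log (Real.log T) ^ k))) atTop (𝓝 (((k + 1).factorial : ℕ) : ℝ)) := by
      have h4 : Tendsto (fun T : ℝ => (k : ℝ) / Real.log (Real.log T)) atTop (𝓝 0) :=
        tendsto_const_nhds.div_atTop hL
      have h2 := ((VV_lim.sub h4).mul ih).const_mul ((k : ℝ) + 1)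
      rw [sub_zero, one_mul] at h2
      rw [Nat.factorial_succ]
      push_cast
      exact h2
    have hx : ∀ T : ℝ, 0 ≤ xT T := fun T => (Real.exp_pos _).le
    refine tendsto_of_tendsto_of_tendsto_of_le_of_le' h3 h1 ?_ ?_
    · filter_upwards [hL.eventually_gt_atTop 0] with T hT
      rw [← sub_div, div_mul_div_comm, ← mul_div_assoc, ← pow_succ']
      exact div_le_div_of_nonneg_right (SS_lower (hx T) k) (by positivity)
    · filter_upwards [hL.eventually_gt_atTop 0] with T hT
      rw [div_mul_div_comm, ← mul_div_assoc, ← pow_succ']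
      exact div_le_div_of_nonneg_right (SS_upper (hx T) k) (by positivity)

theorem t_MC : Pool.Agent.Y745.SW.P_MC := by
  intro k l
  have hx : ∀ T : ℝ, 0 ≤ xT T := fun T => (Real.exp_pos _).le
  by_cases h : k = l
  · subst h
    rw [if_pos rfl]
    refine (SS_lim k).congr' ?_
    have hL : Tendsto (fun T : ℝ => Real.log (Real.log T)) atTop atTop :=
      Real.tendsto_log_atTop.comp Real.tendsto_log_atTop
    filter_upwards [hL.eventually_gt_atTop 0, Real.tendsto_log_atTop.eventually_gt_atTop 0] with T hT hT1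
    have h1 : 1 ≤ ⌊xT T⌋₊ := by
      refine Nat.le_floor ?_
      rw [xT, Nat.cast_one, Real.one_le_exp_iff]
      positivity
    rw [← SS_eq (hx T) k (⌊xT T⌋₊ ^ (k + k)) (Nat.pow_le_pow_right h1 (by omega))]
    have h2 : ((k : ℝ) + k) / 2 = (k : ℝ) := by ring
    rw [h2, Real.rpow_natCast]
    congr 1
    exact Finset.sum_congr rfl fun n _ => sq _
  · rw [if_neg h]
    refine Tendsto.congr (f₁ := fun _ => (0 : ℝ)) (fun T => ?_) tendsto_const_nhds
    rw [Finset.sum_eq_zero fun n _ => pA_orth (hx T) h n, zero_div]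

end Pool.Agent.Y655.SW
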