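import Pool.Agent.Y655.SW.Ers0
import Pool.Agent.TH803.UC.Dyad

/-!
# Project SW (helper745): the total cost of the zeros, unconditionally
-/

set_option autoImplicit false

namespace Pool.Agent.Y655.SW

theorem t_ERS : Pool.Agent.Y745.SW.P_ER1 → Pool.Agent.Y745.SW.P_ERS := ers_of TH803UC.dens_zeta

end Pool.Agent.Y655.SW
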