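import Pool.Agent.Y745.SW.DefsC
import Pool.Agent.H370R2.DirGood

/-!
# Project SW (helper745): the total cost of the zeros
-/

set_option autoImplicit false

namespace Pool.Agent.Y655.SW

open Filter Topology MeasureTheory Complex H370 Pool.Agent.Y745.SW

lemma err_nonneg (B : ℝ → ℝ) (a N N0 κ1 Y0 L d η1 : ℝ) (hη : 0 ≤ η1) (t : ℝ) (z : ℂ) :
    0 ≤ err B a N N0 κ1 Y0 L d η1 t z := by
  unfold err
  refine add_nonneg ?_ ?_
  · split_ifs
    · positivity
    · exact le_rfl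
  · split_ifs
    · exact le_rfl
    · positivity

lemma zf_sub {A B A' B' : ℝ} (hA : 1 ≤ A') (h1 : A' ≤ A) (h2 : B ≤ B') :
    Zf riemannZeta A B ⊆ Zf riemannZeta A' B' := by
  intro s hs
  rw [mem_Zf good_zeta (hA.trans h1)] at hs
  rw [mem_Zf good_zeta hA]
  exact ⟨hs.1, hs.2.1, h1.trans_lt hs.2.2.1, hs.2.2.2.1.trans h2, hs.2.2.2.2⟩

theorem ers_of (hD : ∃ κ C T0 : ℝ, 0 < κ ∧ 0 < C ∧ 10 ≤ T0 ∧ ∀ T : ℝ, T0 ≤ T →
    ∑ s ∈ Zf riemannZeta T (2 * T), (mult riemannZeta s : ℝ) *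
      Real.exp (κ * (|(zz s).im| * Real.log T)) ≤ C * (T * Real.log T)) : P_ER1 → P_ERS := by
  intro h1
  obtain ⟨κ, C', T0, hκ, hC', hT0, hd⟩ := hD
  obtain ⟨j, κ1, τ0, hκ1, hτ0, hτ1, h2⟩ := h1 κ hκ
  refine ⟨j, τ0, hτ0, hτ1, fun C hC ε hε => ?_⟩
  obtain ⟨C2, hC2, h3⟩ := h2 C hC
  obtain ⟨Y0, hY0⟩ : ∃ Y0 : ℝ, Y0 = max 1 (2 / κ * Real.log (3 * C2 * C' / ε)) := ⟨_, rfl⟩
  have hY1 : 1 ≤ Y0 := by rw [hY0]; exact le_max_left _ _
  have hY2 : C2 * Real.exp (-(κ * Y0 / 2)) ≤ ε / (3 * C') := by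
    have e1 : Real.log (3 * C2 * C' / ε) ≤ κ * Y0 / 2 := by
      have : 2 / κ * Real.log (3 * C2 * C' / ε) ≤ Y0 := by rw [hY0]; exact le_max_right _ _
      calc Real.log (3 * C2 * C' / ε) = κ * (2 / κ * Real.log (3 * C2 * C' / ε)) / 2 := by
            field_simp
        _ ≤ κ * Y0 / 2 := by gcongr
    have e2 : 3 * C2 * C' / ε ≤ Real.exp (κ * Y0 / 2) := by
      rw [← Real.log_le_iff_le_exp (by positivity)]; exact e1
    rw [Real.exp_neg, ← div_eq_mul_inv, div_le_div_iff₀ (Real.exp_pos _) (by positivity)]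
    rw [div_le_iff₀ hε] at e2
    linarith
  obtain ⟨η1, hη1⟩ : ∃ η1 : ℝ, η1 = min 1 (ε / (9 * C')) := ⟨_, rfl⟩
  have hη0 : 0 < η1 := by rw [hη1]; exact lt_min one_pos (by positivity)
  have hηa : η1 ≤ 1 := by rw [hη1]; exact min_le_left _ _
  have hηb : 3 * η1 ≤ ε / (3 * C') := by
    have : η1 ≤ ε / (9 * C') := by rw [hη1]; exact min_le_right _ _
    calc 3 * η1 ≤ 3 * (ε / (9 * C')) := by gcongr
      _ = _ := by field_simp; ring
  obtain ⟨N0, N1, hN0, hN1, hNN, h4⟩ := h3 Y0 (ε / (3 * C')) hY1 (by positivity)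
  refine ⟨κ1, Y0, η1, N0, N1, hY1, hη0, hηa, hN0, hN1, hNN, ?_⟩
  intro N τ hN hτ hττ B hB
  have h5 := Real.tendsto_log_atTop.eventually (h4 N τ hN hτ hττ)
  filter_upwards [h5, eventually_ge_atTop T0] with T h6 hT
  intro d hd0 hdL U1 U2 hU1 hU2 t1 t2 ht
  have hT10 : 10 ≤ T := hT0.trans hT
  have hL : 0 < Real.log T := Real.log_pos (by linarith)
  have hN0' : 0 < N := by linarith
  obtain ⟨L, hLd⟩ : ∃ L : ℝ, L = Real.log T := ⟨_, rfl⟩
  have hdT := hd T hT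
  rw [← hLd] at h6 hdL hL hdT ⊢
  have hsub : Zf riemannZeta U1 U2 ⊆ Zf riemannZeta T (2 * T) := zf_sub (by linarith) hU1 hU2
  have h7 : ∀ s ∈ Zf riemannZeta U1 U2,
      Integrable (fun t : ℝ => err B (τ * L) N N0 κ1 Y0 L d η1 t (zz s)) ∧
      ∫ t : ℝ, err B (τ * L) N N0 κ1 Y0 L d η1 t (zz s) ≤
        N / (τ * L) * (3 * η1 + ε / (3 * C') + (if Y0 ≤ |(zz s).im| * L then
          C2 * Real.exp (κ * (|(zz s).im| * L) / 2) else 0)) := by
    intro s hs
    refine h6 d η1 hd0 hdL hη0.le hηa B hB (zz s) ?_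
    rw [mem_Zf good_zeta (by linarith)] at hs
    rw [zz_im, abs_neg, abs_le]
    constructor <;> linarith [hs.1, hs.2.1]
  have hK : 3 * η1 + ε / (3 * C') + C2 * Real.exp (-(κ * Y0 / 2)) ≤ ε / C' := by
    calc _ ≤ ε / (3 * C') + ε / (3 * C') + ε / (3 * C') := by gcongr
      _ = ε / C' := by field_simp; ring
  have h8 : ∀ s ∈ Zf riemannZeta U1 U2,
      ∫ t in t1..t2, (mult riemannZeta s : ℝ) * err B (τ * L) N N0 κ1 Y0 L d η1 t (zz s) ≤
        N / (τ * L) * (ε / C') * ((mult riemannZeta s : ℝ) *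
          Real.exp (κ * (|(zz s).im| * L))) := by
    intro s hs
    obtain ⟨hi, hb⟩ := h7 s hs
    rw [intervalIntegral.integral_const_mul]
    have e1 : ∫ t in t1..t2, err B (τ * L) N N0 κ1 Y0 L d η1 t (zz s) ≤
        ∫ t : ℝ, err B (τ * L) N N0 κ1 Y0 L d η1 t (zz s) := by
      rw [intervalIntegral.integral_of_le ht]
      exact setIntegral_le_integral hi (Eventually.of_forall fun t =>
        err_nonneg B _ N N0 κ1 Y0 L d η1 hη0.le t _)
    have hy : 0 ≤ |(zz s).im| * L := mul_nonneg (abs_nonneg _) hL.le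
    have e2 : 1 ≤ Real.exp (κ * (|(zz s).im| * L)) := Real.one_le_exp (by positivity)
    have e3 : (if Y0 ≤ |(zz s).im| * L then C2 * Real.exp (κ * (|(zz s).im| * L) / 2) else 0) ≤
        C2 * Real.exp (-(κ * Y0 / 2)) * Real.exp (κ * (|(zz s).im| * L)) := by
      split_ifs with h
      · rw [mul_assoc, ← Real.exp_add]
        refine mul_le_mul_of_nonneg_left (Real.exp_le_exp.2 ?_) hC2.le
        have : κ * Y0 ≤ κ * (|(zz s).im| * L) := mul_le_mul_of_nonneg_left h hκ.le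
        linarith
      · positivity
    have e4 : 3 * η1 + ε / (3 * C') + (if Y0 ≤ |(zz s).im| * L then
          C2 * Real.exp (κ * (|(zz s).im| * L) / 2) else 0) ≤
        ε / C' * Real.exp (κ * (|(zz s).im| * L)) := by
      have f1 : 3 * η1 + ε / (3 * C') ≤
          (3 * η1 + ε / (3 * C')) * Real.exp (κ * (|(zz s).im| * L)) :=
        le_mul_of_one_le_right (by positivity) e2
      have f2 := mul_le_mul_of_nonneg_right hK (Real.exp_pos (κ * (|(zz s).im| * L))).le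
      linarith
    calc (mult riemannZeta s : ℝ) * ∫ t in t1..t2, err B (τ * L) N N0 κ1 Y0 L d η1 t (zz s) ≤
        (mult riemannZeta s : ℝ) * (N / (τ * L) * (ε / C' *
          Real.exp (κ * (|(zz s).im| * L)))) := by
          refine mul_le_mul_of_nonneg_left (e1.trans (hb.trans ?_)) (Nat.cast_nonneg _)
          exact mul_le_mul_of_nonneg_left e4 (by positivity)
      _ = _ := by ring
  rw [intervalIntegral.integral_finsetSum (fun s hs =>
    ((h7 s hs).1.intervalIntegrable).const_mul _)]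
  refine (Finset.sum_le_sum h8).trans ?_
  rw [← Finset.mul_sum]
  have h9 : ∑ s ∈ Zf riemannZeta U1 U2, (mult riemannZeta s : ℝ) *
      Real.exp (κ * (|(zz s).im| * L)) ≤ C' * (T * L) :=
    (Finset.sum_le_sum_of_subset_of_nonneg hsub fun s _ _ => by positivity).trans hdT
  calc N / (τ * L) * (ε / C') * ∑ s ∈ Zf riemannZeta U1 U2, (mult riemannZeta s : ℝ) *
      Real.exp (κ * (|(zz s).im| * L)) ≤ N / (τ * L) * (ε / C') * (C' * (T * L)) :=
        mul_le_mul_of_nonneg_left h9 (by positivity)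
    _ = ε * (N / τ * T) := by field_simp

end Pool.Agent.Y655.SW
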