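import Pool.Agent.Y745.SW.DefsA

/-!
# Project SW (helper745): the derivative at an isolated zero from one value near the zero
-/

set_option autoImplicit false

namespace Pool.Agent.Y655.SW

open Filter Topology Complex Metric Set

/-- a holomorphic logarithm on a disc -/
lemma exists_logB {r : ℝ} (hr : 0 < r) {g : ℂ → ℂ} (hg : DifferentiableOn ℂ g (ball 0 r))
    (h0 : ∀ z ∈ ball (0 : ℂ) r, g z ≠ 0) :
    ∃ H : ℂ → ℂ, H 0 = 0 ∧ DifferentiableOn ℂ H (ball 0 r) ∧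
      ∀ z ∈ ball (0 : ℂ) r, g z = g 0 * exp (H z) := by
  have h1 : DifferentiableOn ℂ (fun z => deriv g z / g z) (ball 0 r) :=
    (hg.deriv isOpen_ball).div hg h0
  obtain ⟨H, hH0, hH⟩ := h1.isExactOn_ball.with_val_at 0 0
  refine ⟨H, hH0, fun z hz => (hH z hz).differentiableAt.differentiableWithinAt, ?_⟩
  have h0m : (0 : ℂ) ∈ ball (0 : ℂ) r := mem_ball_self hr
  have hk : ∀ z ∈ ball (0 : ℂ) r, HasDerivAt (fun z => g z * exp (-H z)) 0 z := by
    intro z hz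
    have e1 : HasDerivAt g (deriv g z) z :=
      ((hg z hz).differentiableAt (isOpen_ball.mem_nhds hz)).hasDerivAt
    have e2 := (hH z hz).neg.cexp
    have e3 : HasDerivAt (fun z => g z * exp (-H z))
        (deriv g z * exp (-H z) + g z * (exp (-H z) * -(deriv g z / g z))) z := e1.mul e2
    have e4 : deriv g z * exp (-H z) + g z * (exp (-H z) * -(deriv g z / g z)) = 0 := by
      have := h0 z hz
      field_simp
      ring
    rwa [e4] at e3
  intro z hz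
  have h2 : (fun z => g z * exp (-H z)) z = (fun z => g z * exp (-H z)) 0 :=
    isOpen_ball.is_const_of_deriv_eq_zero (convex_ball (0 : ℂ) r).isPreconnected
      (fun w hw => (hk w hw).differentiableAt.differentiableWithinAt)
      (fun w hw => (hk w hw).deriv) hz h0m
  simp only [hH0, neg_zero, exp_zero, mul_one] at h2
  rw [← h2, mul_assoc, ← exp_add, neg_add_cancel, exp_zero, mul_one]

theorem t_HAR : Pool.Agent.Y745.SW.P_HAR := by
  refine ⟨8, by norm_num, ?_⟩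
  intro f ρ s1 r M θ hr hθ hθ4 hf hfρ hf' hf0 hfM hs1 hs1θ
  have hdf : DifferentiableOn ℂ f (closedBall ρ r) := fun z hz =>
    (hf z hz).differentiableAt.differentiableWithinAt
  have hdg : DifferentiableOn ℂ (dslope f ρ) (closedBall ρ r) :=
    (differentiableOn_dslope (closedBall_mem_nhds ρ hr)).2 hdf
  obtain ⟨A, hA⟩ : ∃ A : ℝ, A = M - Real.log r := ⟨_, rfl⟩
  have hg1 : ∀ z : ℂ, z ≠ ρ → dslope f ρ z = f z / (z - ρ) := by
    intro z hz
    rw [dslope_of_ne f hz, slope_def_field, hfρ, sub_zero]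
  have hgρ : dslope f ρ ρ = deriv f ρ := dslope_same f ρ
  -- the bound
  have hgb : ∀ z ∈ closedBall ρ r, ‖dslope f ρ z‖ ≤ Real.exp A := by
    intro z hz
    rw [← closure_ball ρ hr.ne'] at hz
    refine Complex.norm_le_of_forall_mem_frontier_norm_le isBounded_ball
      (DifferentiableOn.diffContOnCl (by rwa [closure_ball ρ hr.ne'])) ?_ hz
    intro w hw
    rw [frontier_ball ρ hr.ne', mem_sphere, dist_eq_norm] at hw
    have hwρ : w ≠ ρ := by
      rintro rfl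
      rw [sub_self, norm_zero] at hw
      exact hr.ne hw
    rw [hg1 w hwρ, norm_div, hw, hA, Real.exp_sub, Real.exp_log hr]
    refine div_le_div_of_nonneg_right (hfM w ?_) hr.le
    rw [mem_closedBall, dist_eq_norm, hw]
  have hgne : ∀ z ∈ closedBall ρ r, dslope f ρ z ≠ 0 := by
    intro z hz
    by_cases h : z = ρ
    · rw [h, hgρ]; exact hf'
    · rw [hg1 z h]
      exact div_ne_zero (hf0 z hz h) (sub_ne_zero.2 h)
  -- the translate
  obtain ⟨g, hg⟩ : ∃ g : ℂ → ℂ, g = fun z => dslope f ρ (z + ρ) := ⟨_, rfl⟩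
  have hmem : ∀ z ∈ ball (0 : ℂ) r, z + ρ ∈ closedBall ρ r := by
    intro z hz
    rw [mem_ball_zero_iff] at hz
    rw [mem_closedBall, dist_eq_norm, add_sub_cancel_right]
    exact hz.le
  have hgd : DifferentiableOn ℂ g (ball 0 r) := by
    rw [hg]
    exact hdg.comp ((differentiable_id.add_const ρ).differentiableOn) hmem
  have hgn : ∀ z ∈ ball (0 : ℂ) r, g z ≠ 0 := fun z hz => by
    rw [hg]; exact hgne _ (hmem z hz)
  obtain ⟨H, hH0, hHd, hH⟩ := exists_logB hr hgd hgn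
  have h0m : (0 : ℂ) ∈ ball (0 : ℂ) r := mem_ball_self hr
  have hg0 : g 0 = deriv f ρ := by rw [hg]; simp only [zero_add]; exact hgρ
  have hpos : ∀ z ∈ ball (0 : ℂ) r, 0 < ‖g z‖ := fun z hz => norm_pos_iff.2 (hgn z hz)
  have hre : ∀ z ∈ ball (0 : ℂ) r, (H z).re = Real.log ‖g z‖ - Real.log ‖g 0‖ := by
    intro z hz
    rw [hH z hz, norm_mul, Complex.norm_exp, Real.log_mul (hpos 0 h0m).ne' (Real.exp_pos _).ne',
      Real.log_exp]
    ring
  have hlogA : ∀ z ∈ ball (0 : ℂ) r, Real.log ‖g z‖ ≤ A := by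
    intro z hz
    rw [Real.log_le_iff_le_exp (hpos z hz), hg]
    exact hgb _ (hmem z hz)
  obtain ⟨m0, hm0⟩ : ∃ m0 : ℝ, m0 = A - Real.log ‖g 0‖ := ⟨_, rfl⟩
  have hm00 : 0 ≤ m0 := by rw [hm0]; linarith [hlogA 0 h0m]
  obtain ⟨z1, hz1⟩ : ∃ z1 : ℂ, z1 = s1 - ρ := ⟨_, rfl⟩
  have hz1n : ‖z1‖ ≤ θ * r := by rw [hz1]; exact hs1θ
  have hz1m : z1 ∈ ball (0 : ℂ) r := by
    rw [mem_ball_zero_iff]
    nlinarith
  have hHb : ‖H z1‖ ≤ 8 / 3 * θ * m0 := by
    refine le_of_forall_pos_le_add fun η hη => ?_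
    have h1 := borelCaratheodory_zero (M := m0 + η) (by linarith) hHd (fun z hz => by
      show (H z).re ≤ m0 + η
      rw [hre z hz, hm0]
      linarith [hlogA z hz]) hr hz1m hH0
    refine h1.trans ?_
    have h2 : 0 < r - ‖z1‖ := by nlinarith
    have h3 : ‖z1‖ / (r - ‖z1‖) ≤ 4 / 3 * θ := by
      rw [div_le_iff₀ h2]
      nlinarith [norm_nonneg z1]
    calc 2 * (m0 + η) * ‖z1‖ / (r - ‖z1‖) = 2 * (m0 + η) * (‖z1‖ / (r - ‖z1‖)) := by ring
      _ ≤ 2 * (m0 + η) * (4 / 3 * θ) := mul_le_mul_of_nonneg_left h3 (by linarith)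
      _ = 8 / 3 * θ * m0 + 8 / 3 * θ * η := by ring
      _ ≤ 8 / 3 * θ * m0 + η := by nlinarith
  have hX : Real.log ‖g z1‖ = Real.log ‖f s1‖ - Real.log ‖s1 - ρ‖ := by
    have e1 : g z1 = f s1 / (s1 - ρ) := by
      rw [hg, hz1]
      simp only [sub_add_cancel]
      exact hg1 s1 hs1
    have hs1m : s1 ∈ closedBall ρ r := by
      rw [mem_closedBall, dist_eq_norm]
      nlinarith
    have e2 : ‖f s1‖ ≠ 0 := norm_ne_zero_iff.2 (hf0 s1 hs1m hs1)
    have e3 : ‖s1 - ρ‖ ≠ 0 := norm_ne_zero_iff.2 (sub_ne_zero.2 hs1)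
    rw [e1, norm_div, Real.log_div e2 e3]
  have h4 := (Complex.abs_re_le_norm (H z1)).trans hHb
  rw [hre z1 hz1m, hX, hg0, abs_sub_comm] at h4
  rw [hg0, hA] at hm0
  obtain ⟨x, hx⟩ : ∃ x : ℝ, x = Real.log ‖f s1‖ - Real.log ‖s1 - ρ‖ := ⟨_, rfl⟩
  rw [← hx] at h4 ⊢
  obtain ⟨y, hy⟩ : ∃ y : ℝ, y = Real.log ‖deriv f ρ‖ := ⟨_, rfl⟩
  rw [← hy] at h4 hm0 ⊢
  have h5 := abs_le.1 h4
  have h6 : 8 / 3 * θ * m0 ≤ 2 / 3 * m0 := mul_le_mul_of_nonneg_right (by linarith) hm00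
  have h7 : m0 ≤ 3 * (M - Real.log r - x) := by linarith [h5.1, h5.2]
  calc |y - x| ≤ 8 / 3 * θ * m0 := h4
    _ ≤ 8 / 3 * θ * (3 * (M - Real.log r - x)) := mul_le_mul_of_nonneg_left h7 (by positivity)
    _ = _ := by ring

end Pool.Agent.Y655.SW
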