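import Pool.Agent.Y745.SW.DefsC
import Pool.Agent.H370R2.DirGood

/-!
# Project SW (helper745): the spectral form of the weighted pair sum
-/

set_option autoImplicit false

namespace Pool.Agent.Y655.SW

open Filter Topology MeasureTheory Complex H370 Pool.Agent.Y745.SW

lemma VF_conj {B : ℝ → ℝ} (hB : ∀ ξ, B (-ξ) = B ξ) (z : ℂ) :
    (starRingEnd ℂ) (VF B z) = VF B ((starRingEnd ℂ) z) := by
  unfold VF
  rw [← intervalIntegral.intervalIntegral_conj]
  have h1 : (∫ ξ in (-1:ℝ)..1, (B ξ : ℂ) * cexp (I * ξ * (starRingEnd ℂ) z)) =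
      ∫ ξ in (-1:ℝ)..1, (B (-ξ) : ℂ) * cexp (I * ((-ξ : ℝ) : ℂ) * (starRingEnd ℂ) z) := by
    rw [intervalIntegral.integral_comp_neg (a := (-1 : ℝ)) (b := 1)
      (fun ξ : ℝ => (B ξ : ℂ) * cexp (I * ξ * (starRingEnd ℂ) z)), neg_neg]
  rw [h1]
  refine intervalIntegral.integral_congr fun ξ _ => ?_
  rw [map_mul, Complex.conj_ofReal, hB, ← Complex.exp_conj]
  congr 2
  rw [map_mul, map_mul, Complex.conj_I, Complex.conj_ofReal]
  push_cast
  ring

lemma vt_conj {B : ℝ → ℝ} (hB : ∀ ξ, B (-ξ) = B ξ) (a t : ℝ) (z : ℂ) :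
    (starRingEnd ℂ) (vt B a t z) = vt B a t ((starRingEnd ℂ) z) := by
  unfold vt
  rw [map_mul, VF_conj hB, ← Complex.exp_conj]
  simp only [map_mul, map_sub, Complex.conj_ofReal, map_div₀, map_neg, map_pow, Complex.conj_ofNat]

lemma St_conj {B : ℝ → ℝ} (hB : ∀ ξ, B (-ξ) = B ξ) (a t u : ℝ) {U1 U2 : ℝ} (hU : 1 ≤ U1) :
    (starRingEnd ℂ) (St B a U1 U2 u t) = St B a U1 U2 (-u) t := by
  unfold St
  rw [map_sum, ← sum_refl good_zeta hU
    (fun s => (mult riemannZeta s : ℂ) * (vt B a t (zz s) * cexp (I * (-u : ℝ) * zz s)))]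
  refine Finset.sum_congr rfl fun s hs => ?_
  rw [mem_Zf good_zeta hU] at hs
  rw [zz_refl, mult_refl good_zeta hs.1 hs.2.1 (by linarith [hs.2.2.1]), map_mul, map_mul,
    Complex.conj_natCast, vt_conj hB, ← Complex.exp_conj, map_mul, map_mul, Complex.conj_I,
    Complex.conj_ofReal]
  congr 3
  push_cast
  ring

lemma St_cont (B : ℝ → ℝ) (a t U1 U2 : ℝ) : Continuous (fun u : ℝ => St B a U1 U2 u t) := by
  unfold St
  fun_prop

theorem t_TRK : Pool.Agent.Y745.SW.P_TRK := by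
  intro B a t Λ U1 U2 _ hB hU
  have hG : ∀ α : ℝ, ((‖St B a U1 U2 (Λ * α) t‖ ^ 2 : ℝ) : ℂ) =
      ∑ s ∈ Zf riemannZeta U1 U2, ∑ s' ∈ Zf riemannZeta U1 U2,
        (mult riemannZeta s : ℂ) * (mult riemannZeta s' : ℂ) *
        (vt B a t (zz s) * vt B a t (zz s') * cexp (I * (Λ * (zz s - zz s')) * α)) := by
    intro α
    rw [← Complex.normSq_eq_norm_sq, ← Complex.mul_conj, St_conj hB a t _ hU]
    unfold St
    rw [Finset.sum_mul_sum]
    refine Finset.sum_congr rfl fun s _ => Finset.sum_congr rfl fun s' _ => ?_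
    have e1 : cexp (I * (Λ * (zz s - zz s')) * α) =
        cexp (I * ((Λ * α : ℝ) : ℂ) * zz s) * cexp (I * ((-(Λ * α) : ℝ) : ℂ) * zz s') := by
      rw [← Complex.exp_add]
      congr 1
      push_cast
      ring
    rw [e1]
    ring
  have h1 : ∀ s s' : ℂ, vt B a t (zz s) * vt B a t (zz s') * kap (Λ * (zz s - zz s')) ^ 2 =
      ∫ α in (-1 : ℝ)..1, (Rf α : ℂ) *
        (vt B a t (zz s) * vt B a t (zz s') * cexp (I * (Λ * (zz s - zz s')) * α)) := by
    intro s s'
    rw [kap_sq, ← intervalIntegral.integral_const_mul]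
    refine intervalIntegral.integral_congr fun α _ => ?_
    ring
  have h2 : ∑ s ∈ Zf riemannZeta U1 U2, ∑ s' ∈ Zf riemannZeta U1 U2,
      (mult riemannZeta s : ℂ) * (mult riemannZeta s' : ℂ) *
      (vt B a t (zz s) * vt B a t (zz s') * kap (Λ * (zz s - zz s')) ^ 2) =
      ∫ α in (-1 : ℝ)..1, ((Rf α * ‖St B a U1 U2 (Λ * α) t‖ ^ 2 : ℝ) : ℂ) := by
    have h3 : ∀ α : ℝ, ((Rf α * ‖St B a U1 U2 (Λ * α) t‖ ^ 2 : ℝ) : ℂ) =
        ∑ s ∈ Zf riemannZeta U1 U2, ∑ s' ∈ Zf riemannZeta U1 U2,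
          (mult riemannZeta s : ℂ) * (mult riemannZeta s' : ℂ) * ((Rf α : ℂ) *
          (vt B a t (zz s) * vt B a t (zz s') * cexp (I * (Λ * (zz s - zz s')) * α))) := by
      intro α
      rw [Complex.ofReal_mul, hG, Finset.mul_sum]
      refine Finset.sum_congr rfl fun s _ => ?_
      rw [Finset.mul_sum]
      refine Finset.sum_congr rfl fun s' _ => ?_
      ring
    rw [intervalIntegral.integral_congr (fun α _ => h3 α)]
    have hc : ∀ s s' : ℂ, Continuous fun α : ℝ =>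
        (mult riemannZeta s : ℂ) * (mult riemannZeta s' : ℂ) * ((Rf α : ℂ) *
          (vt B a t (zz s) * vt B a t (zz s') * cexp (I * (Λ * (zz s - zz s')) * α))) := by
      intro s s'
      have := Rf_cont
      fun_prop
    rw [intervalIntegral.integral_finsetSum]
    swap
    · intro s _
      exact (continuous_finsetSum _ fun s' _ => hc s s').intervalIntegrable _ _
    refine Finset.sum_congr rfl fun s _ => ?_
    rw [intervalIntegral.integral_finsetSum]
    swap
    · intro s' _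
      exact (hc s s').intervalIntegrable _ _
    refine Finset.sum_congr rfl fun s' _ => ?_
    rw [h1, intervalIntegral.integral_const_mul]
  rw [h2, intervalIntegral.integral_ofReal, Complex.ofReal_re]
  obtain ⟨G, hGd⟩ : ∃ G : ℝ → ℝ, G = fun α => Rf α * ‖St B a U1 U2 (Λ * α) t‖ ^ 2 := ⟨_, rfl⟩
  have hGc : Continuous G := by
    rw [hGd]
    have h5 : Continuous (fun α : ℝ => St B a U1 U2 (Λ * α) t) :=
      (St_cont B a t U1 U2).comp (by fun_prop)
    exact Rf_cont.mul (h5.norm.pow 2)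
  have hGe : ∀ α, G (-α) = G α := by
    intro α
    rw [hGd]
    simp only
    rw [Rf_even, mul_neg, ← St_conj hB a t _ hU, RCLike.norm_conj]
  have h4 : ∫ α in (-1 : ℝ)..1, G α = 2 * ∫ α in (0 : ℝ)..1, G α := by
    rw [← intervalIntegral.integral_add_adjacent_intervals (b := 0)
      (hGc.intervalIntegrable _ _) (hGc.intervalIntegrable _ _)]
    have h5 : ∫ α in (-1 : ℝ)..0, G α = ∫ α in (0 : ℝ)..1, G α := by
      have := intervalIntegral.integral_comp_neg (a := (0 : ℝ)) (b := 1) G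
      simp_rw [hGe] at this
      rw [neg_zero] at this
      exact this.symm
    rw [h5]; ring
  rw [hGd] at h4
  exact h4

end Pool.Agent.Y655.SW
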